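import Mathlib
import Pool.Agent.Helper9.NS
import Pool.Agent.Helper40.CX.H67KP.Rfl
import Pool.Agent.Helper40.CX.H15KP.DefG
import Pool.Agent.Helper40.CX.Good2

namespace CX

/-!
# KQ: the curve of genus one `y² = e (s)`, `e` a quartic

`Ω = L (s, y)`, where `e 4 = q²` in `L`; the Weierstrass coordinates, the reflections.
-/

set_option linter.unusedSectionVars false

namespace Pool.Agent.Helper67.KQ

open VC VF Function Polynomial Pool.Agent.Helper21.TO Pool.Agent.Helper15.GT Pool.Agent.Helper15.KP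
open Pool.Agent.Helper67.KP
open Pool.Agent.Helper51.VN (Harm)

universe u

section maps

variable {R S : Type*} [CommRing R] [CommRing S]

lemma map_qua (f : R →+* S) (e : Fin 5 → R) (s : R) : f (qua e s) = qua (fun j => f (e j)) (f s) := by
  simp only [qua, map_add, map_mul, map_pow]

lemma map_xr (f : R →+* S) (q e3 e2 s y : R) : f (xr q e3 e2 s y) = xr (f q) (f e3) (f e2) (f s) (f y) := by
  simp only [xr, map_add, map_mul, map_pow, map_ofNat]

lemma map_yr (f : R →+* S) (q e3 e2 e1 s y : R) :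
    f (yr q e3 e2 e1 s y) = yr (f q) (f e3) (f e2) (f e1) (f s) (f y) := by
  simp only [yr, map_add, map_mul, map_pow, map_ofNat]

lemma map_QS (f : R →+* S) (e : Fin 5 → R) : f (QS e) = QS (fun j => f (e j)) := by
  simp only [QS, map_add, map_mul, map_pow, map_sub, map_neg, map_ofNat]

lemma map_QT (f : R →+* S) (e : Fin 5 → R) : f (QT e) = QT (fun j => f (e j)) := by
  simp only [QT, map_add, map_mul, map_pow, map_sub, map_neg, map_ofNat]

end maps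

/-- A quartic with nonzero discriminant is not a square. -/
theorem not_sq_qua {K : Type*} [Field K] [Good K] {c : Fin 5 → K} (hD : 4 * QS c ^ 3 + QT c ^ 2 ≠ 0) (g : K[X]) :
    g ^ 2 ≠ C (c 4) * X ^ 4 + C (c 3) * X ^ 3 + C (c 2) * X ^ 2 + C (c 1) * X + C (c 0) := by
  intro hg
  unfold QS QT at hD
  obtain ⟨a, ha⟩ : ∃ a, a = c 4 := ⟨_, rfl⟩
  obtain ⟨b, hb⟩ : ∃ a, a = c 3 := ⟨_, rfl⟩
  obtain ⟨d, hd⟩ : ∃ a, a = c 2 := ⟨_, rfl⟩
  obtain ⟨e, he⟩ : ∃ a, a = c 1 := ⟨_, rfl⟩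
  obtain ⟨f, hf⟩ : ∃ a, a = c 0 := ⟨_, rfl⟩
  rw [← ha, ← hb, ← hd, ← he, ← hf] at hg hD
  have hdeg : g.natDegree ≤ 2 := by
    have h1 : (g ^ 2).natDegree ≤ 4 := by
      rw [hg]
      compute_degree
    rw [natDegree_pow] at h1
    omega
  have hg' : g = C (g.coeff 2) * X ^ 2 + C (g.coeff 1) * X + C (g.coeff 0) := by
    conv_lhs => rw [as_sum_range_C_mul_X_pow' (n := 3) g (by omega)]
    rw [Finset.sum_range_succ, Finset.sum_range_succ, Finset.sum_range_succ, Finset.sum_range_zero, pow_one,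
      pow_zero, mul_one]
    ring
  obtain ⟨x, hx⟩ : ∃ a, a = g.coeff 2 := ⟨_, rfl⟩
  obtain ⟨y, hy⟩ : ∃ a, a = g.coeff 1 := ⟨_, rfl⟩
  obtain ⟨z, hz⟩ : ∃ a, a = g.coeff 0 := ⟨_, rfl⟩
  rw [← hx, ← hy, ← hz] at hg'
  have hev : ∀ r : K, (x * r ^ 2 + y * r + z) ^ 2 = a * r ^ 4 + b * r ^ 3 + d * r ^ 2 + e * r + f := by
    intro r
    have h1 := congrArg (Polynomial.eval r) hg
    rw [hg'] at h1
    simpa using h1
  have E0 := hev 0
  have E1 := hev 1
  have E2 := hev (-1)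
  have E3 := hev 2
  have E4 := hev (-2)
  have c0 : f = z ^ 2 := by linear_combination -E0
  have c4 : a = x ^ 2 := by
    have : (24 : K) ≠ 0 := by norm_num
    apply mul_left_cancel₀ this
    linear_combination -E3 - E4 + 4 * E1 + 4 * E2 - 6 * E0
  have c2 : d = y ^ 2 + 2 * x * z := by
    have : (2 : K) ≠ 0 := by norm_num
    apply mul_left_cancel₀ this
    linear_combination -E1 - E2 + 2 * E0 - 2 * c4
  have c3 : b = 2 * x * y := by
    have : (12 : K) ≠ 0 := by norm_num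
    apply mul_left_cancel₀ this
    linear_combination -E3 + E4 + 2 * E1 - 2 * E2
  have c1 : e = 2 * y * z := by
    have : (2 : K) ≠ 0 := by norm_num
    apply mul_left_cancel₀ this
    linear_combination -E1 + E2 - 2 * c3
  rw [c0, c1, c2, c3, c4] at hD
  apply hD
  ring

/-- The curve `y² = e (s)` over `L`. -/
structure Cq (L Ω : Type u) [Field L] [Field Ω] [Algebra L Ω] where
  e : Fin 5 → L
  q : L
  hq : q ^ 2 = e 4
  q0 : q ≠ 0
  dsc : 4 * QS e ^ 3 + QT e ^ 2 ≠ 0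
  s : Ω
  y : Ω
  eqn : y ^ 2 = qua (fun j => algebraMap L Ω (e j)) s
  tr : Transcendental L s
  gen : IntermediateField.adjoin L {s, y} = ⊤

namespace Cq

variable {L Ω : Type u} [Field L] [Field Ω] [Algebra L Ω] [Good L] (D : Cq L Ω)

/-- the coefficients in `Ω` -/
abbrev E : Fin 5 → Ω := fun j => algebraMap L Ω (D.e j)
/-- the square root of the leading coefficient -/
abbrev Q : Ω := algebraMap L Ω D.q

/-- the Weierstrass coordinates -/
abbrev xq (q : L) (s y : Ω) : Ω := xr (algebraMap L Ω q) (D.E 3) (D.E 2) s y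
abbrev yq (q : L) (s y : Ω) : Ω := yr (algebraMap L Ω q) (D.E 3) (D.E 2) (D.E 1) s y

include D in
lemma two_ne : (2 : Ω) ≠ 0 := by
  have := (algebraMap L Ω).injective.ne (two_ne_zero (α := L))
  rwa [map_ofNat, map_zero] at this

include D in
lemma three_ne : (3 : Ω) ≠ 0 := by
  have := (algebraMap L Ω).injective.ne (three_ne_zero (α := L))
  rwa [map_ofNat, map_zero] at this

/-- the quartic polynomial -/
noncomputable def P : L[X] :=
  Polynomial.C (D.e 4) * X ^ 4 + Polynomial.C (D.e 3) * X ^ 3 + Polynomial.C (D.e 2) * X ^ 2 +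
    Polynomial.C (D.e 1) * X + Polynomial.C (D.e 0)

lemma y_sq : D.y ^ 2 = aeval D.s D.P := by
  rw [D.eqn]
  simp only [P, qua, map_add, map_mul, map_pow, aeval_C, aeval_X]

lemma qC_ne {q : L} (h : q ≠ 0) : algebraMap L Ω q ≠ 0 := (_root_.map_ne_zero _).mpr h

theorem weier (q : L) (hq : q ^ 2 = D.e 4) : D.yq q D.s D.y ^ 2 = D.xq q D.s D.y ^ 3 +
    27 * QS D.E * D.xq q D.s D.y + 27 * QT D.E := by
  have h4 : algebraMap L Ω q ^ 2 = D.E 4 := by rw [← map_pow, hq]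
  have h1 : D.y ^ 2 = algebraMap L Ω q ^ 2 * D.s ^ 4 + D.E 3 * D.s ^ 3 + D.E 2 * D.s ^ 2 + D.E 1 * D.s + D.E 0 := by
    rw [D.eqn, h4, qua]
  have h2 := weier_quartic h1
  rw [h4] at h2
  rw [QS, QT]
  linear_combination h2

theorem tr_x {q : L} (hq : q ≠ 0) : Transcendental L (D.xq q D.s D.y) := by
  intro hx
  set M : IntermediateField L Ω := algebraicClosure L Ω with hM
  have hxM : D.xq q D.s D.y ∈ M := mem_algebraicClosure_iff.mpr hx
  have hrt : Transcendental M D.s := fun h => D.tr (h.restrictScalars L)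
  have z1 : Good M := Good.ext L
  set xM : M := ⟨_, hxM⟩ with hxM'
  set eM : Fin 5 → M := fun j => algebraMap L M (D.e j) with heM'
  set qM : M := algebraMap L M q with hqM
  have hqne : algebraMap L Ω q ≠ 0 := qC_ne hq
  have hqMne : qM ≠ 0 := (_root_.map_ne_zero _).mpr hq
  have hD : 4 * QS eM ^ 3 + QT eM ^ 2 ≠ 0 := by
    have h := (_root_.map_ne_zero (algebraMap L M)).mpr D.dsc
    rw [map_add, map_mul, map_pow, map_pow, map_QS, map_QT, map_ofNat] at h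
    exact h
  have h2' := D.two_ne
  have h3' := D.three_ne
  have h6 : (6 : Ω) ≠ 0 := by
    have : (6 : Ω) = 2 * 3 := by norm_num
    rw [this]; exact mul_ne_zero h2' h3'
  let g : M[X] := Polynomial.C (-qM) * X ^ 2 - Polynomial.C (3 * eM 3 / (6 * qM)) * X +
    Polynomial.C ((xM / 3 - eM 2) / (6 * qM))
  have hg : aeval D.s g = D.y := by
    have hw := w_of_x (q := algebraMap L Ω q) (e3 := D.E 3) (e2 := D.E 2) (r := D.s)
      (w := D.y) hqne h2' h3'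
    have e1 : algebraMap M Ω (eM 3) = D.E 3 := rfl
    have e2 : algebraMap M Ω (eM 2) = D.E 2 := rfl
    have e3 : algebraMap M Ω xM = xr (algebraMap L Ω q) (D.E 3) (D.E 2) D.s D.y := rfl
    have e4 : algebraMap M Ω qM = algebraMap L Ω q := rfl
    conv_rhs => rw [hw]
    simp only [g, map_add, map_sub, map_mul, map_pow, aeval_C, aeval_X, map_neg, map_div₀, map_ofNat, e1, e2, e3, e4]
    field_simp
    ring
  have hsq : aeval D.s (g ^ 2 - (Polynomial.C (eM 4) * X ^ 4 + Polynomial.C (eM 3) * X ^ 3 +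
      Polynomial.C (eM 2) * X ^ 2 + Polynomial.C (eM 1) * X + Polynomial.C (eM 0))) = 0 := by
    rw [map_sub, map_pow, hg, D.y_sq]
    unfold P
    simp only [map_add, map_mul, map_pow, aeval_C, aeval_X, heM']
    simp only [← IsScalarTower.algebraMap_apply]
    ring
  have h5 := (transcendental_iff.mp hrt) _ hsq
  exact not_sq_qua hD g (sub_eq_zero.mp h5)

/-- The linear equation for `s` is not trivial. -/
lemma den_ne {q : L} (hq : q ≠ 0) {x : Ω} (hx : Transcendental L x) :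
    (algebraMap L Ω q) ^ 2 * 24 * x + 144 * (algebraMap L Ω q) ^ 2 * D.E 2 - 54 * D.E 3 ^ 2 ≠ 0 := by
  intro h
  obtain ⟨A, hA⟩ : ∃ A : L, A = q ^ 2 * 24 := ⟨_, rfl⟩
  obtain ⟨B, hB⟩ : ∃ B : L, B = 144 * q ^ 2 * D.e 2 - 54 * D.e 3 ^ 2 := ⟨_, rfl⟩
  have hA' : algebraMap L Ω A = (algebraMap L Ω q) ^ 2 * 24 := by
    rw [hA, map_mul, map_pow, map_ofNat]
  have hB' : algebraMap L Ω B = 144 * (algebraMap L Ω q) ^ 2 * D.E 2 - 54 * D.E 3 ^ 2 := by
    rw [hB, map_sub, map_mul, map_mul, map_pow, map_ofNat, map_mul, map_pow, map_ofNat]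
  have h2 : aeval x (Polynomial.C A * X + Polynomial.C B) = 0 := by
    rw [map_add, map_mul, aeval_C, aeval_C, aeval_X, hA', hB']
    linear_combination h
  have h3 := (transcendental_iff.mp hx) _ h2
  have h4 := congrArg (fun p => coeff p 1) h3
  have h5 : A = 0 := by simpa [coeff_X, coeff_C] using h4
  have h7 : (24 : L) ≠ 0 := by norm_num
  rw [hA] at h5
  exact mul_ne_zero (pow_ne_zero 2 hq) h7 h5

/-- The point is determined by its Weierstrass coordinates. -/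
theorem det {q : L} (hq : q ≠ 0) {s₁ y₁ s₂ y₂ : Ω} (hx : D.xq q s₁ y₁ = D.xq q s₂ y₂)
    (hy : D.yq q s₁ y₁ = D.yq q s₂ y₂) (hxt : Transcendental L (D.xq q s₂ y₂)) : s₁ = s₂ ∧ y₁ = y₂ := by
  have hq' : algebraMap L Ω q ≠ 0 := qC_ne hq
  have i1 := inv_r (algebraMap L Ω q) (D.E 3) (D.E 2) (D.E 1) s₁ y₁
  have i2 := inv_r (algebraMap L Ω q) (D.E 3) (D.E 2) (D.E 1) s₂ y₂
  have hden := D.den_ne hq hxt
  have i1' : 4 * algebraMap L Ω q * D.yq q s₁ y₁ = s₁ * ((algebraMap L Ω q) ^ 2 * 24 * D.xq q s₁ y₁ +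
    144 * (algebraMap L Ω q) ^ 2 * D.E 2 - 54 * D.E 3 ^ 2) * 1 +
      (108 * (algebraMap L Ω q) ^ 2 * D.E 1 + 6 * D.E 3 * D.xq q s₁ y₁ - 18 * D.E 3 * D.E 2) := i1
  have i2' : 4 * algebraMap L Ω q * D.yq q s₂ y₂ = s₂ * ((algebraMap L Ω q) ^ 2 * 24 * D.xq q s₂ y₂ +
    144 * (algebraMap L Ω q) ^ 2 * D.E 2 - 54 * D.E 3 ^ 2) * 1 +
      (108 * (algebraMap L Ω q) ^ 2 * D.E 1 + 6 * D.E 3 * D.xq q s₂ y₂ - 18 * D.E 3 * D.E 2) := i2
  rw [hx, hy] at i1'
  have hr : s₁ = s₂ := by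
    refine mul_right_cancel₀ hden ?_
    linear_combination i2' - i1'
  have hw1 := w_of_x (q := algebraMap L Ω q) (e3 := D.E 3) (e2 := D.E 2) (r := s₁) (w := y₁) hq' D.two_ne D.three_ne
  have hw2 := w_of_x (q := algebraMap L Ω q) (e3 := D.E 3) (e2 := D.E 2) (r := s₂) (w := y₂) hq' D.two_ne D.three_ne
  refine ⟨hr, ?_⟩
  have hx' : xr (algebraMap L Ω q) (D.E 3) (D.E 2) s₁ y₁ = xr (algebraMap L Ω q) (D.E 3) (D.E 2) s₂ y₂ := hx
  rw [hw1, hx', hr, ← hw2]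

/-- `Ω = L (x, y)`. -/
theorem gen_xy {q : L} (hq0 : q ≠ 0) : IntermediateField.adjoin L {D.xq q D.s D.y, D.yq q D.s D.y} = ⊤ := by
  rw [eq_top_iff, ← D.gen, IntermediateField.adjoin_le_iff]
  set N := IntermediateField.adjoin L {D.xq q D.s D.y, D.yq q D.s D.y} with hN
  have hx : D.xq q D.s D.y ∈ N := IntermediateField.subset_adjoin _ _ (Or.inl rfl)
  have hy : D.yq q D.s D.y ∈ N := IntermediateField.subset_adjoin _ _ (Or.inr rfl)
  have hnat : ∀ n : ℕ, (n : Ω) ∈ N := fun n => natCast_mem N n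
  have hq : algebraMap L Ω q ∈ N := N.algebraMap_mem _
  have e3 : D.E 3 ∈ N := N.algebraMap_mem _
  have e2 : D.E 2 ∈ N := N.algebraMap_mem _
  have e1 : D.E 1 ∈ N := N.algebraMap_mem _
  have hden := D.den_ne hq0 (D.tr_x hq0)
  have i1 : 4 * algebraMap L Ω q * D.yq q D.s D.y = D.s * ((algebraMap L Ω q) ^ 2 * 24 * D.xq q D.s D.y +
    144 * (algebraMap L Ω q) ^ 2 * D.E 2 - 54 * D.E 3 ^ 2) * 1 +
      (108 * (algebraMap L Ω q) ^ 2 * D.E 1 + 6 * D.E 3 * D.xq q D.s D.y - 18 * D.E 3 * D.E 2) :=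
    inv_r (algebraMap L Ω q) (D.E 3) (D.E 2) (D.E 1) D.s D.y
  have n4 : (4 : Ω) ∈ N := by exact_mod_cast hnat 4
  have n24 : (24 : Ω) ∈ N := by exact_mod_cast hnat 24
  have n144 : (144 : Ω) ∈ N := by exact_mod_cast hnat 144
  have n54 : (54 : Ω) ∈ N := by exact_mod_cast hnat 54
  have n108 : (108 : Ω) ∈ N := by exact_mod_cast hnat 108
  have n6 : (6 : Ω) ∈ N := by exact_mod_cast hnat 6
  have n18 : (18 : Ω) ∈ N := by exact_mod_cast hnat 18
  have n3 : (3 : Ω) ∈ N := by exact_mod_cast hnat 3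
  have hr : D.s ∈ N := by
    have e : D.s = (4 * algebraMap L Ω q * D.yq q D.s D.y - (108 * (algebraMap L Ω q) ^ 2 * D.E 1 +
        6 * D.E 3 * D.xq q D.s D.y - 18 * D.E 3 * D.E 2)) /
        ((algebraMap L Ω q) ^ 2 * 24 * D.xq q D.s D.y + 144 * (algebraMap L Ω q) ^ 2 * D.E 2 - 54 * D.E 3 ^ 2) := by
      rw [eq_div_iff hden]
      linear_combination -i1
    rw [e]
    refine N.div_mem (N.sub_mem (N.mul_mem (N.mul_mem n4 hq) hy) (N.sub_mem (N.add_mem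
      (N.mul_mem (N.mul_mem n108 (pow_mem hq 2)) e1) (N.mul_mem (N.mul_mem n6 e3) hx))
      (N.mul_mem (N.mul_mem n18 e3) e2))) (N.sub_mem (N.add_mem (N.mul_mem (N.mul_mem (pow_mem hq 2) n24) hx)
      (N.mul_mem (N.mul_mem n144 (pow_mem hq 2)) e2)) (N.mul_mem n54 (pow_mem e3 2)))
  have hw : D.y ∈ N := by
    have hw := w_of_x (q := algebraMap L Ω q) (e3 := D.E 3) (e2 := D.E 2) (r := D.s)
      (w := D.y) (qC_ne hq0) D.two_ne D.three_ne
    rw [hw]
    change (D.xq q D.s D.y / 3 - 3 * D.E 3 * D.s - D.E 2) / (6 * algebraMap L Ω q) -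
      algebraMap L Ω q * D.s ^ 2 ∈ N
    exact N.sub_mem (N.div_mem (N.sub_mem (N.sub_mem (N.div_mem hx n3) (N.mul_mem (N.mul_mem n3 e3) hr)) e2)
      (N.mul_mem n6 hq)) (N.mul_mem hq (pow_mem hr 2))
  rintro z (rfl | rfl)
  · exact hr
  · exact hw

section refl

variable {k : Type u} [Field k] [Good k] [Algebra k L] [Algebra k Ω] [IsScalarTower k L Ω]

/-- The reflection in the origin. -/
theorem exists_nu : ∃ R : Ω ≃ₐ[k] Ω, Ref k L Ω R ∧ R (D.xq D.q D.s D.y) = D.xq D.q D.s D.y ∧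
    R (D.yq D.q D.s D.y) = - D.yq D.q D.s D.y := by
  refine exists_ref _ _ (D.tr_x D.q0)
    (X ^ 3 + Polynomial.C (27 * QS D.e) * X + Polynomial.C (27 * QT D.e)) ?_ ?_ (D.gen_xy D.q0)
  · rw [D.weier D.q D.hq, map_add, map_add, map_pow, map_mul, aeval_X, aeval_C,
      aeval_C, map_mul, map_mul, map_QS, map_QT, map_ofNat]
  · intro g hg
    have h1 : (X ^ 3 + Polynomial.C (27 * QS D.e) * X + Polynomial.C (27 * QT D.e) : L[X]).natDegree = 3 := by
      compute_degree!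
    rw [← hg, natDegree_pow] at h1
    omega

/-- The reflection `y ↦ - y`. -/
theorem exists_rho : ∃ R : Ω ≃ₐ[k] Ω, Ref k L Ω R ∧ R D.s = D.s ∧ R D.y = - D.y :=
  exists_ref _ _ D.tr D.P D.y_sq (fun g => not_sq_qua D.dsc g) D.gen

/-- An automorphism. -/
theorem eq_of (g R : Ω ≃ₐ[k] Ω) (hE : ∀ j, g (D.E j) = D.E j) {q : L} (hq : q ≠ 0) (hQ : g D.Q = algebraMap L Ω q)
    (hR : ∀ z : L, R (algebraMap L Ω z) = algebraMap L Ω z)
    (hx : g (D.xq D.q D.s D.y) = R (D.xq q D.s D.y)) (hy : g (D.yq D.q D.s D.y) = R (D.yq q D.s D.y)) :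
    g D.s = R D.s ∧ g D.y = R D.y := by
  have hRE : ∀ j, R (D.E j) = D.E j := fun j => hR _
  have e1 : g (D.xq D.q D.s D.y) = D.xq q (g D.s) (g D.y) := by
    have h := map_xr (g : Ω →+* Ω) D.Q (D.E 3) (D.E 2) D.s D.y
    have a := hE 3
    have b := hE 2
    change g (D.xq D.q D.s D.y) = xr (g D.Q) (g (D.E 3)) (g (D.E 2)) (g D.s) (g D.y) at h
    rw [a, b, hQ] at h
    exact h
  have e2 : g (D.yq D.q D.s D.y) = D.yq q (g D.s) (g D.y) := by
    have h := map_yr (g : Ω →+* Ω) D.Q (D.E 3) (D.E 2) (D.E 1) D.s D.y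
    have a := hE 3
    have b := hE 2
    have c := hE 1
    change g (D.yq D.q D.s D.y) = yr (g D.Q) (g (D.E 3)) (g (D.E 2)) (g (D.E 1)) (g D.s) (g D.y) at h
    rw [a, b, c, hQ] at h
    exact h
  have e3 : R (D.xq q D.s D.y) = D.xq q (R D.s) (R D.y) := by
    have h := map_xr (R : Ω →+* Ω) (algebraMap L Ω q) (D.E 3) (D.E 2) D.s D.y
    have a := hRE 3
    have b := hRE 2
    change R (D.xq q D.s D.y) = xr (R (algebraMap L Ω q)) (R (D.E 3)) (R (D.E 2)) (R D.s) (R D.y) at h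
    rw [a, b, hR] at h
    exact h
  have e4 : R (D.yq q D.s D.y) = D.yq q (R D.s) (R D.y) := by
    have h := map_yr (R : Ω →+* Ω) (algebraMap L Ω q) (D.E 3) (D.E 2) (D.E 1) D.s D.y
    have a := hRE 3
    have b := hRE 2
    have c := hRE 1
    change R (D.yq q D.s D.y) = yr (R (algebraMap L Ω q)) (R (D.E 3)) (R (D.E 2)) (R (D.E 1)) (R D.s) (R D.y) at h
    rw [a, b, c, hR] at h
    exact h
  have htr : ∀ z : Ω, Transcendental L z → Transcendental L (R z) := by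
    intro z hz h
    apply hz
    obtain ⟨p, hp, hp'⟩ := h
    refine ⟨p, hp, ?_⟩
    have h1 : R (aeval z p) = aeval (R z) p := by
      rw [aeval_def, aeval_def]
      have h2 := Polynomial.hom_eval₂ p (algebraMap L Ω) (R : Ω →+* Ω) z
      have h3 : (R : Ω →+* Ω).comp (algebraMap L Ω) = algebraMap L Ω := RingHom.ext hR
      rw [h3] at h2
      exact h2
    exact (map_eq_zero_iff R R.injective).mp (h1.trans hp')
  refine D.det hq ?_ ?_ ?_
  · rw [← e1, ← e3, hx]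
  · rw [← e2, ← e4, hy]
  · rw [← e3]
    exact htr _ (D.tr_x hq)

lemma xq_neg (s y : Ω) : D.xq (-D.q) s y = D.xq D.q s (-y) ∧ D.yq (-D.q) s y = - D.yq D.q s (-y) := by
  constructor
  · change xr (algebraMap L Ω (-D.q)) (D.E 3) (D.E 2) s y = xr (algebraMap L Ω D.q) (D.E 3) (D.E 2) s (-y)
    rw [map_neg]
    unfold xr
    ring
  · change yr (algebraMap L Ω (-D.q)) (D.E 3) (D.E 2) (D.E 1) s y =
      - yr (algebraMap L Ω D.q) (D.E 3) (D.E 2) (D.E 1) s (-y)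
    rw [map_neg]
    unfold yr
    ring

/-- The reflection exchanges the two origins. -/
lemma rho_x {R : Ω ≃ₐ[k] Ω} (hR : Ref k L Ω R) (h1 : R D.s = D.s) (h2 : R D.y = - D.y) :
    R (D.xq (-D.q) D.s D.y) = D.xq D.q D.s D.y ∧ R (D.yq (-D.q) D.s D.y) = - D.yq D.q D.s D.y := by
  have a := hR.fix (D.e 3)
  have b := hR.fix (D.e 2)
  have c := hR.fix (D.e 1)
  have d := hR.fix D.q
  obtain ⟨e1, e2⟩ := D.xq_neg D.s D.y
  constructor
  · rw [e1]
    have h := map_xr (R : Ω →+* Ω) D.Q (D.E 3) (D.E 2) D.s (-D.y)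
    change R (D.xq D.q D.s (-D.y)) = xr (R D.Q) (R (D.E 3)) (R (D.E 2)) (R D.s) (R (-D.y)) at h
    rw [h, map_neg, h1, h2, neg_neg]
    change xr (R (algebraMap L Ω D.q)) (R (algebraMap L Ω (D.e 3))) (R (algebraMap L Ω (D.e 2))) _ _ = _
    rw [a, b, d]
  · rw [e2, map_neg]
    have h := map_yr (R : Ω →+* Ω) D.Q (D.E 3) (D.E 2) (D.E 1) D.s (-D.y)
    change R (D.yq D.q D.s (-D.y)) = yr (R D.Q) (R (D.E 3)) (R (D.E 2)) (R (D.E 1)) (R D.s) (R (-D.y)) at h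
    rw [h, map_neg, h1, h2, neg_neg]
    change - yr (R (algebraMap L Ω D.q)) (R (algebraMap L Ω (D.e 3))) (R (algebraMap L Ω (D.e 2)))
      (R (algebraMap L Ω (D.e 1))) _ _ = _
    rw [a, b, c, d]

/-- Classification, the case of the trivial sign. -/
theorem class_pos (g : Ω ≃ₐ[k] Ω) (hE : ∀ j, g (D.E j) = D.E j) (hQ : g D.Q = D.Q ∨ g D.Q = - D.Q)
    (hx : g (D.xq D.q D.s D.y) = D.xq D.q D.s D.y) (hy : g (D.yq D.q D.s D.y) = D.yq D.q D.s D.y) :
    (g D.s = D.s ∧ g D.y = D.y) ∨ ∃ ν ρ : Ω ≃ₐ[k] Ω, Ref k L Ω ν ∧ Ref k L Ω ρ ∧ g D.s = ν (ρ D.s) ∧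
      g D.y = ν (ρ D.y) := by
  rcases hQ with hQ | hQ
  · left
    exact D.eq_of g 1 hE D.q0 hQ (fun _ => rfl) hx hy
  · right
    obtain ⟨ν, hν, hνx, hνy⟩ := D.exists_nu (k := k)
    obtain ⟨ρ, hρ, h1, h2⟩ := D.exists_rho (k := k)
    obtain ⟨h3, h4⟩ := D.rho_x hρ h1 h2
    refine ⟨ν, ρ, hν, hρ, ?_⟩
    refine D.eq_of g (ν * ρ) hE (q := - D.q) (neg_ne_zero.mpr D.q0) (by rw [hQ, map_neg]) (fun z => ?_) ?_ ?_
    · rw [AlgEquiv.mul_apply, hρ.fix, hν.fix]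
    · rw [hx, AlgEquiv.mul_apply, h3, hνx]
    · rw [hy, AlgEquiv.mul_apply, h4, map_neg, hνy, neg_neg]

/-- Classification, the case of the nontrivial sign. -/
theorem class_neg (g : Ω ≃ₐ[k] Ω) (hE : ∀ j, g (D.E j) = D.E j) (hQ : g D.Q = D.Q ∨ g D.Q = - D.Q)
    (hx : g (D.xq D.q D.s D.y) = D.xq D.q D.s D.y) (hy : g (D.yq D.q D.s D.y) = - D.yq D.q D.s D.y) :
    ∃ R : Ω ≃ₐ[k] Ω, Ref k L Ω R ∧ g D.s = R D.s ∧ g D.y = R D.y := by
  rcases hQ with hQ | hQ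
  · obtain ⟨ν, hν, hνx, hνy⟩ := D.exists_nu (k := k)
    refine ⟨ν, hν, D.eq_of g ν hE D.q0 hQ hν.fix ?_ ?_⟩
    · rw [hx, hνx]
    · rw [hy, hνy]
  · obtain ⟨ρ, hρ, h1, h2⟩ := D.exists_rho (k := k)
    obtain ⟨h3, h4⟩ := D.rho_x hρ h1 h2
    refine ⟨ρ, hρ, D.eq_of g ρ hE (q := - D.q) (neg_ne_zero.mpr D.q0) (by rw [hQ, map_neg]) hρ.fix ?_ ?_⟩
    · rw [hx, h3]
    · rw [hy, h4]

end refl

end Cq

end Pool.Agent.Helper67.KQ

end CX
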