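import Mathlib
import Pool.Agent.Helper9.NS
import Pool.Agent.Helper40.CX.H50KS.Qd1
import Pool.Agent.Helper40.CX.H67KQ.Orb
import Pool.Agent.Helper40.CX.H67KP.Cst
import Pool.Agent.Helper40.CX.H15KP.DefG
import Pool.Agent.Helper40.CX.H70KX.Ind
import Pool.Agent.Helper40.CX.Good2

namespace CX

/-!
# KQ: the structures CQ and QG from a quartic extension
-/

set_option linter.unusedSectionVars false

namespace Pool.Agent.Helper67.KQ

open Polynomial
open CX.VC CX.VF Function Pool.Agent.Helper21.TO Pool.Agent.Helper15.GT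
open Pool.Agent.Helper15.KP
open Pool.Agent.Helper50.KS
open Pool.Agent.Helper70.KX (ind_fst ind_snd ind_of)

universe u

lemma evls_hom {k E N : Type*} [Field k] [Field E] [Field N] [Algebra k E] [Algebra k N] (f : E →ₐ[k] N) (l s : E)
    (p : k[X][X]) : f (evls l s p) = evls (f l) (f s) p := by
  have h1 := Polynomial.hom_eval₂ p (aeval l : k[X] →ₐ[k] E).toRingHom (f : E →+* N) s
  have h2 : (f : E →+* N).comp (aeval l : k[X] →ₐ[k] E).toRingHom = (aeval (f l) : k[X] →ₐ[k] N).toRingHom := by
    apply RingHom.ext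
    intro p
    exact (aeval_algHom_apply f l p).symm
  rw [h2] at h1
  exact h1

lemma evls_mem {k E : Type*} [Field k] [Field E] [Algebra k E] (M : IntermediateField k E) {l s : E} (hl : l ∈ M)
    (hs : s ∈ M) (p : k[X][X]) : evls l s p ∈ M := by
  have h := evls_hom M.val ⟨l, hl⟩ ⟨s, hs⟩ p
  change _ = evls l s p at h
  rw [← h]
  exact (evls (⟨l, hl⟩ : M) ⟨s, hs⟩ p).2

lemma ind_inv {k E : Type u} [Field k] [Field E] [Algebra k E] {l x : E} (h : AlgebraicIndependent k ![l, x]) (c : k) :
    AlgebraicIndependent k ![l, (x - algebraMap k E c)⁻¹] := by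
  refine ind_of (ind_fst h) ?_
  intro h1
  apply ind_snd h
  have h2 := h1.inv
  rw [inv_inv] at h2
  have h3 : x = (x - algebraMap k E c) + algebraMap (IntermediateField.adjoin k {l}) E
      (algebraMap k (IntermediateField.adjoin k {l}) c) := by
    rw [← IsScalarTower.algebraMap_apply]
    ring
  rw [h3]
  exact h2.add (isAlgebraic_algebraMap _)

section main

variable {k R F N : Type u} [Field k] [IsAlgClosed k] [Good k] [Field R] [Good R] [Field F] [Field N]
  [Algebra k R] [Algebra k F] [Algebra k N] [Algebra R F] [Algebra R N] [Algebra F N] [IsScalarTower k R F]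
  [IsScalarTower k R N] [IsScalarTower R F N] [Normal R N] [FiniteDimensional R N]
  (Q : Quart R F) (φ : Fin 4 ≃ (F →ₐ[R] N))

/-- the data of the surface of pairs -/
theorem exists_cq {i j : Fin 4} (hij : i ≠ j) (h : Q.sl φ i j ≠ 0) {s t : R}
    (hst : AlgebraicIndependent k ![s, t]) (hgen : IntermediateField.adjoin k (Set.range ![s, t]) = ⊤)
    (α : k[X]) (hα : α ≠ 0) (β γ : k[X][X]) (c0 : k) (e : Fin 5 → k[X]) (he : e 4 ≠ 0)
    (hd : 4 * QS e ^ 3 + QT e ^ 2 ≠ 0)
    (hform : ∀ (S : Type u) [Field S] [Algebra k S] (l s s' : S), (s - algebraMap k S c0) * s' = 1 →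
      s' ^ 4 * (evls l s β ^ 2 - 4 * aeval l α * evls l s γ) = qua (fun i => aeval l (e i)) s')
    (heq : ∀ τ : N, algebraMap R N Q.b ^ 2 * τ ^ 6 - 4 * algebraMap R N Q.g * τ ^ 4 +
      4 * algebraMap R N Q.f * τ ^ 2 - algebraMap R N Q.a ^ 2 = 0 →
      aeval (τ ^ 2) α * algebraMap R N t ^ 2 + evls (τ ^ 2) (algebraMap R N s) β * algebraMap R N t +
        evls (τ ^ 2) (algebraMap R N s) γ = 0) :
    ∃ D : CQ k (IntermediateField.adjoin R {Q.sl φ i j}), D.e = e ∧
      ∀ σ : N ≃ₐ[R] N, σ (Q.sl φ i j) = -Q.sl φ i j →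
        ∀ x : IntermediateField.adjoin R {Q.sl φ i j}, σ (x : N) = ((D.ι x : IntermediateField.adjoin R {Q.sl φ i j}) : N) := by
  obtain ⟨io, hι2, hιτ, hισ⟩ := Q.exists_iota φ hij
  have hτ : Transcendental k (Q.sl φ i j) := Q.sl_transc k φ h
  have hcub := heq (Q.sl φ i j) (Q.sl_res φ h)
  generalize hτdef : Q.sl φ i j = τ at *
  let E := IntermediateField.adjoin R {τ}
  have hst' : AlgebraicIndependent k ![algebraMap R N s, algebraMap R N t] := by
    have h1 := hst.map' (f := IsScalarTower.toAlgHom k R N) (algebraMap R N).injective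
    convert h1 using 1
    funext i
    fin_cases i <;> rfl
  have hτs := indep2 hτ hst' α hα β γ hcub
  let τE : E := IntermediateField.AdjoinSimple.gen R τ
  have hτE : (τE : N) = τ := rfl
  let valk : E →ₐ[k] N := E.val.restrictScalars k
  have hinj : Function.Injective valk := (valk : E →+* N).injective
  let sE : E := algebraMap R E s
  let tE : E := algebraMap R E t
  have hEind : AlgebraicIndependent k ![τE, sE] := by
    apply AlgebraicIndependent.of_comp valk
    convert hτs using 1
    funext i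
    fin_cases i <;> rfl
  have hEind' := ind_inv hEind c0
  obtain ⟨s', hs'⟩ : ∃ s' : E, s' = (sE - algebraMap k E c0)⁻¹ := ⟨_, rfl⟩
  rw [← hs'] at hEind'
  have hs0 : sE - algebraMap k E c0 ≠ 0 := by
    intro h0
    apply ind_snd hEind
    have h3 : sE = algebraMap (IntermediateField.adjoin k {τE}) E
      (algebraMap k (IntermediateField.adjoin k {τE}) c0) := by
      rw [← IsScalarTower.algebraMap_apply]
      exact sub_eq_zero.mp h0
    rw [h3]
    exact isAlgebraic_algebraMap _
  have hs'1 : (sE - algebraMap k E c0) * s' = 1 := by rw [hs', mul_inv_cancel₀ hs0]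
  have hs'0 : s' ≠ 0 := by
    rw [hs']
    exact inv_ne_zero hs0
  have hcubE : aeval (τE ^ 2) α * tE ^ 2 + evls (τE ^ 2) sE β * tE + evls (τE ^ 2) sE γ = 0 := by
    apply hinj
    rw [map_zero, map_add, map_add, map_mul, map_mul, map_pow, evls_hom, evls_hom, ← aeval_algHom_apply, map_pow]
    exact hcub
  have hαE : aeval (τE ^ 2) α ≠ 0 := by
    intro h0
    exact hα ((transcendental_iff.mp ((ind_fst hEind).pow (by norm_num : 0 < 2))) _ h0)
  have z2 : Good E := Good.ext k
  refine ⟨{
    τ := τE
    s := s'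
    y := s' ^ 2 * (2 * aeval (τE ^ 2) α * tE + evls (τE ^ 2) sE β)
    ι := io.restrictScalars k
    e := e
    ind := hEind'
    gen := ?_
    ιτ := ?_
    ιs := ?_
    ιy := ?_
    eqn := ?_
    e4 := he
    dsc := hd }, rfl, ?_⟩
  · -- generation
    rw [eq_top_iff]
    set K := IntermediateField.adjoin k ({τE, s', s' ^ 2 * (2 * aeval (τE ^ 2) α * tE + evls (τE ^ 2) sE β)} : Set E)
      with hK
    have kτ : τE ∈ K := IntermediateField.subset_adjoin k _ (by simp)
    have ks' : s' ∈ K := IntermediateField.subset_adjoin k _ (by simp)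
    have ky : s' ^ 2 * (2 * aeval (τE ^ 2) α * tE + evls (τE ^ 2) sE β) ∈ K :=
      IntermediateField.subset_adjoin k _ (by simp)
    have ks : sE ∈ K := by
      have h1 : sE = s'⁻¹ + algebraMap k E c0 := by
        rw [hs', inv_inv]
        ring
      rw [h1]
      exact add_mem (inv_mem ks') (K.algebraMap_mem c0)
    have kα : aeval (τE ^ 2) α ∈ K := Pool.Agent.Helper67.KP.aeval_mem' K (pow_mem kτ 2) α
    have kβ : evls (τE ^ 2) sE β ∈ K := evls_mem K (pow_mem kτ 2) ks β
    have kt : tE ∈ K := by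
      have h1 : tE = ((s' ^ 2 * (2 * aeval (τE ^ 2) α * tE + evls (τE ^ 2) sE β)) / s' ^ 2 - evls (τE ^ 2) sE β) /
          (2 * aeval (τE ^ 2) α) := by
        rw [mul_div_cancel_left₀ _ (pow_ne_zero 2 hs'0), add_sub_cancel_right,
          mul_div_cancel_left₀ _ (mul_ne_zero two_ne_zero hαE)]
      rw [h1]
      exact div_mem (sub_mem (div_mem ky (pow_mem ks' 2)) kβ) (mul_mem (ofNat_mem K 2) kα)
    have hR : ∀ r : R, algebraMap R E r ∈ K := by
      intro r
      have hr : r ∈ IntermediateField.adjoin k (Set.range ![s, t]) := by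
        rw [hgen]
        exact IntermediateField.mem_top
      have h1 : (IntermediateField.adjoin k (Set.range ![s, t])).map (IsScalarTower.toAlgHom k R E) ≤ K := by
        rw [IntermediateField.adjoin_map, IntermediateField.adjoin_le_iff]
        rintro _ ⟨_, ⟨i, rfl⟩, rfl⟩
        fin_cases i
        · exact ks
        · exact kt
      exact h1 ⟨r, hr, rfl⟩
    let K' : IntermediateField R E :=
      { K.toSubfield with
        algebraMap_mem' := hR }
    have hK' : K' = ⊤ := by
      have h2 : IntermediateField.adjoin R {τE} = ⊤ := by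
        apply IntermediateField.lift_injective
        rw [IntermediateField.lift_adjoin, IntermediateField.lift_top, Set.image_singleton, hτE]
      rw [eq_top_iff, ← h2, IntermediateField.adjoin_le_iff, Set.singleton_subset_iff]
      show τE ∈ K
      exact kτ
    intro x _
    have hx : x ∈ K' := by
      rw [hK']
      exact IntermediateField.mem_top
    exact hx
  · apply Subtype.ext
    show ((io τE : E) : N) = -τ
    exact hιτ
  · show io s' = s'
    rw [hs', map_inv₀, map_sub, IsScalarTower.algebraMap_apply k R E]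
    rw [show io sE = sE from io.commutes s, io.commutes]
  · have hιτE : io τE = - τE := by
      apply Subtype.ext
      exact hιτ
    have hs'ι : io s' = s' := by
      rw [hs', map_inv₀, map_sub, IsScalarTower.algebraMap_apply k R E]
      rw [show io sE = sE from io.commutes s, io.commutes]
    have h2 : io (τE ^ 2) = τE ^ 2 := by rw [map_pow, hιτE, neg_sq]
    let iok : E →ₐ[k] E := ((io.restrictScalars k : E ≃ₐ[k] E) : E →ₐ[k] E)
    have h3 : io (aeval (τE ^ 2) α) = aeval (τE ^ 2) α := by
      have h4 := aeval_algHom_apply iok (τE ^ 2) α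
      change aeval (io (τE ^ 2)) α = io _ at h4
      rw [← h4, h2]
    have h5 : io (evls (τE ^ 2) sE β) = evls (τE ^ 2) sE β := by
      have h4 := evls_hom iok (τE ^ 2) sE β
      change io _ = evls (io (τE ^ 2)) (io sE) β at h4
      rw [h4, h2, show io sE = sE from io.commutes s]
    show io (s' ^ 2 * (2 * aeval (τE ^ 2) α * tE + evls (τE ^ 2) sE β)) = _
    rw [map_mul, map_add, map_mul, map_mul, map_pow, hs'ι, h3, h5, map_ofNat, show io tE = tE from io.commutes t]
  · have h6 := hform E (τE ^ 2) sE s' hs'1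
    rw [← h6]
    linear_combination (s' ^ 4 * 4 * aeval (τE ^ 2) α) * hcubE
  · intro σ hσ x
    exact hισ σ hσ x

/-- the structure QG -/
theorem exists_qg0 [Algebra.IsSeparable R N] (h : Q.sl φ 0 1 ≠ 0) {s t : R}
    (hst : AlgebraicIndependent k ![s, t]) (hgen : IntermediateField.adjoin k (Set.range ![s, t]) = ⊤)
    (α : k[X]) (hα : α ≠ 0) (β γ : k[X][X]) (hβ : β.natDegree ≤ 2) (hγ : γ.natDegree ≤ 4) (c0 : k)
    (e : Fin 5 → k[X]) (he : e 4 ≠ 0) (hd : 4 * QS e ^ 3 + QT e ^ 2 ≠ 0)
    (hform : ∀ (S : Type u) [Field S] [Algebra k S] (l s s' : S), (s - algebraMap k S c0) * s' = 1 →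
      s' ^ 4 * (evls l s β ^ 2 - 4 * aeval l α * evls l s γ) = qua (fun i => aeval l (e i)) s')
    (heq : ∀ τ : N, algebraMap R N Q.b ^ 2 * τ ^ 6 - 4 * algebraMap R N Q.g * τ ^ 4 +
      4 * algebraMap R N Q.f * τ ^ 2 - algebraMap R N Q.a ^ 2 = 0 →
      aeval (τ ^ 2) α * algebraMap R N t ^ 2 + evls (τ ^ 2) (algebraMap R N s) β * algebraMap R N t +
        evls (τ ^ 2) (algebraMap R N s) γ = 0)
    (hdeg : ∀ j : Fin 4, j ≠ 0 → Q.sl φ 0 j = 0 → ∀ u : RPl k F → ℂ, HF k F u → ∃ C : ℂ,
      ∀ w : RPl k N, u (w.comap ((φ 0).restrictScalars k)) + u (w.comap ((φ j).restrictScalars k)) = C) :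
    ∃ (F6 G : Type u) (_ : Field F6) (_ : Algebra k F6) (_ : Group G) (_ : Fintype G) (D6 : CQ k F6)
      (_ : QG k F N F6 G D6.ι), D6.e = e := by
  obtain ⟨D, hDe, hDι⟩ := exists_cq Q φ (by decide : (0 : Fin 4) ≠ 1) h hst hgen α hα β γ c0 e he hd hform heq
  obtain ⟨gι, hgι⟩ := Quart.exists_pair_compl φ (i := 0) (j := 1) (k := 2) (l := 3) (by decide) (by decide)
    (by decide) (by decide) (by decide) (by decide)
  have hgτ : gι (Q.sl φ 0 1) = -Q.sl φ 0 1 := by
    rw [Q.aut_sl, ← Q.sl_compl φ (i := 0) (j := 1) (k := 2) (l := 3) (by decide) (by decide)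
      (by decide) (by decide) (by decide) (by decide)]
    rcases hgι with ⟨h1, h2⟩ | ⟨h1, h2⟩
    · rw [h1, h2]
    · rw [h1, h2, Q.sl_symm]
  have hG : IsGalois R N := ⟨⟩
  have hst' : AlgebraicIndependent k ![algebraMap R N s, algebraMap R N t] := by
    have h1 := hst.map' (f := IsScalarTower.toAlgHom k R N) (algebraMap R N).injective
    convert h1 using 1
    funext i
    fin_cases i <;> rfl
  refine ⟨IntermediateField.adjoin R {Q.sl φ 0 1}, N ≃ₐ[R] N, inferInstance, inferInstance, inferInstance,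
    inferInstance, D, ?_, hDe⟩
  exact {
      ρ := rsHom
      e := fun i => (φ i).restrictScalars k
      act := actHom φ
      hact := fun g i x => perm_spec φ g i x
      trans := fun i j => perm_trans φ i j
      fixF := fun z h => (fix0 φ z).mp h
      s := algebraMap R N s
      t := algebraMap R N t
      ind := hst'
      base := by
        intro z
        have hrb : z ∈ Set.range (algebraMap R N) ↔
            z ∈ IntermediateField.adjoin k {algebraMap R N s, algebraMap R N t} := range_base (v := ![s, t]) hgen z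
        rw [← hrb]
        rw [IsGalois.mem_range_algebraMap_iff_fixed]
        rfl
      e6 := (IntermediateField.adjoin R {Q.sl φ 0 1}).val.restrictScalars k
      fix6 := fun z => fix_pair Q φ (by decide) h z
      gι := gι
      hgι := hgι
      hι := fun z => hDι gι hgτ z
      ιι := D.ι_ι
      pair := by
        intro j hj
        by_cases hs : Q.sl φ 0 j = 0
        · exact Or.inr (hdeg j hj hs)
        · left
          obtain ⟨σ, hσ⟩ := conj2 hst hgen (Q.sl_transc k φ h) (Q.sl_transc k φ hs) α hα β γ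
            (G_not_sq α β γ hβ hγ c0 e hd hform) (heq _ (Q.sl_res φ h)) (heq _ (Q.sl_res φ hs))
          refine ⟨σ, ?_⟩
          rw [Q.aut_sl] at hσ
          exact Q.sl_inj φ (Ne.symm hj) (fun h' => (by decide : (0 : Fin 4) ≠ 1) ((perm φ σ).injective h')) hs hσ }

end main

end Pool.Agent.Helper67.KQ

end CX
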