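import Mathlib
import Pool.Agent.Helper40.CX.H50KS.WeiDef2
import Pool.Agent.Helper40.CX.H83KPA.Qua

/-!
# The invariants of the family of quartics
-/

set_option autoImplicit false
set_option linter.unusedSectionVars false

namespace CX.KSq

open Polynomial CX.Pool.Agent.Helper83.KPA
open CX.Pool.Agent.Helper15.KP (QS QT qua)

variable {k : Type*} [Field k]

lemma Gq_eq_disc (a b f2 g2 f4 g4 : k[X]) (f0 g0 l : k) :
    Gq a b f2 g2 f4 g4 f0 g0 l = disc a b f2 g2 f4 g4 f0 g0 l := by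
  unfold Gq disc
  congr 1
  rw [← mul_assoc, ← C_mul]
  congr 2
  ring

lemma inv_qua (d : Fin 5 → k) : inv2 (qua (fun i => C (d i)) X) = - QS d ∧
    inv3 (qua (fun i => C (d i)) X) = - QT d := by
  have h : ∀ n, (qua (fun i => C (d i)) (X : k[X])).coeff n = (if n = 4 then d 4 else 0) +
      (if n = 3 then d 3 else 0) + (if n = 2 then d 2 else 0) + (if n = 1 then d 1 else 0) +
      (if n = 0 then d 0 else 0) := by
    intro n
    change (C (d 4) * X ^ 4 + C (d 3) * X ^ 3 + C (d 2) * X ^ 2 + C (d 1) * X + C (d 0)).coeff n = _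
    have e1 : (C (d 1) * X : k[X]) = C (d 1) * X ^ 1 := by rw [pow_one]
    have e0 : (C (d 0) : k[X]) = C (d 0) * X ^ 0 := by rw [pow_zero, mul_one]
    rw [e1, e0]
    simp only [coeff_add, coeff_C_mul_X_pow]
  unfold inv2 inv3 QS QT
  have h0 := h 0
  have h1 := h 1
  have h2 := h 2
  have h3 := h 3
  have h4 := h 4
  norm_num at h0 h1 h2 h3 h4
  rw [h0, h1, h2, h3, h4]
  constructor <;> ring

variable {a b f2 g2 f4 g4 : k[X]} {f0 g0 : k}

lemma inv_disc (ha : a.natDegree ≤ 1) (hb : b.natDegree ≤ 1)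
    (hf2 : f2.natDegree ≤ 2) (hg2 : g2.natDegree ≤ 2) (hf4 : f4.natDegree ≤ 4) (hg4 : g4.natDegree ≤ 4) (l : k) :
    inv2 (disc a b f2 g2 f4 g4 f0 g0 l) = - QS (fun i => eval l (quE a b f2 g2 f4 g4 f0 g0 i)) ∧
    inv3 (disc a b f2 g2 f4 g4 f0 g0 l) = - QT (fun i => eval l (quE a b f2 g2 f4 g4 f0 g0 i)) := by
  rw [← Gq_eq_disc, Gq_eq ha hb hf2 hg2 hf4 hg4 l]
  exact inv_qua _

/-- A member of the family is nonsingular. -/
theorem HasModuli2.smooth (ha : a.natDegree ≤ 1) (hb : b.natDegree ≤ 1)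
    (hf2 : f2.natDegree ≤ 2) (hg2 : g2.natDegree ≤ 2) (hf4 : f4.natDegree ≤ 4) (hg4 : g4.natDegree ≤ 4)
    (h : HasModuli2 a b f2 g2 f4 g4 f0 g0) :
    ∃ l : k, 4 * QS (fun i => eval l (quE a b f2 g2 f4 g4 f0 g0 i)) ^ 3 +
      QT (fun i => eval l (quE a b f2 g2 f4 g4 f0 g0 i)) ^ 2 ≠ 0 := by
  obtain ⟨l, -, h1, -⟩ := h
  obtain ⟨e2, e3⟩ := inv_disc ha hb hf2 hg2 hf4 hg4 (f0 := f0) (g0 := g0) l
  refine ⟨l, fun h0 => h1 ?_⟩
  rw [e2, e3]
  linear_combination -h0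

lemma disc_square {R : Type*} [CommRing R] (B : Fin 3 → R) :
    4 * QS (sq5 B (fun _ => 0)) ^ 3 + QT (sq5 B (fun _ => 0)) ^ 2 = 0 := by
  unfold QS QT
  rw [sq5_0, sq5_1, sq5_2, sq5_3, sq5_4]
  ring

lemma quE_zero (a b f2 g2 f4 g4 : k[X]) (l : k) :
    4 * QS (fun i => eval l (quE a b f2 g2 f4 g4 0 0 i)) ^ 3 +
      QT (fun i => eval l (quE a b f2 g2 f4 g4 0 0 i)) ^ 2 = 0 := by
  have h : (fun i => eval l (quE a b f2 g2 f4 g4 0 0 i)) =
      sq5 (fun j => eval l (quB a b f2 g2 j)) (fun _ => 0) := by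
    funext i
    have h1 := sq5_map (evalRingHom l) (quB a b f2 g2) (quR f4 g4 0 0) i
    have h2 : (fun j => evalRingHom l (quR f4 g4 0 0 j)) = fun _ => (0 : k) := by
      funext j
      simp [quR]
    rw [h2] at h1
    exact h1
  rw [h]
  exact disc_square _

/-- The invariants of the family are independent. -/
theorem HasModuli2.indep (ha : a.natDegree ≤ 1) (hb : b.natDegree ≤ 1)
    (hf2 : f2.natDegree ≤ 2) (hg2 : g2.natDegree ≤ 2) (hf4 : f4.natDegree ≤ 4) (hg4 : g4.natDegree ≤ 4)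
    (h : HasModuli2 a b f2 g2 f4 g4 f0 g0) {A B : k[X]}
    (hS : ∀ l, eval l (X ^ 2 * A) = QS (fun i => eval l (quE a b f2 g2 f4 g4 f0 g0 i)))
    (hT : ∀ l, eval l (X ^ 3 * B) = QT (fun i => eval l (quE a b f2 g2 f4 g4 f0 g0 i)))
    (α β : k) (hAB : C α * A ^ 3 = C β * B ^ 2) : α = 0 ∧ β = 0 := by
  obtain ⟨l₁, l₂, -, hj⟩ := h
  have key : ∀ l : k, α * inv2 (disc a b f2 g2 f4 g4 f0 g0 l) ^ 3 = - β * inv3 (disc a b f2 g2 f4 g4 f0 g0 l) ^ 2 := by
    intro l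
    obtain ⟨e2, e3⟩ := inv_disc ha hb hf2 hg2 hf4 hg4 (f0 := f0) (g0 := g0) l
    rw [e2, e3, ← hS l, ← hT l]
    have h4 := congrArg (eval l) hAB
    simp only [eval_mul, eval_C, eval_pow, eval_X] at h4 ⊢
    linear_combination - l ^ 6 * h4
  have k1 := key l₁
  have k2 := key l₂
  by_contra hcon
  apply hj
  by_cases hα : α = 0
  · have hβ : β ≠ 0 := fun h => hcon ⟨hα, h⟩
    have hb1 : inv3 (disc a b f2 g2 f4 g4 f0 g0 l₁) = 0 := by
      rw [hα, zero_mul] at k1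
      have h8 := (mul_eq_zero.mp k1.symm).resolve_left (neg_ne_zero.mpr hβ)
      exact pow_eq_zero_iff (n := 2) (by norm_num) |>.mp h8
    have hb2 : inv3 (disc a b f2 g2 f4 g4 f0 g0 l₂) = 0 := by
      rw [hα, zero_mul] at k2
      have h8 := (mul_eq_zero.mp k2.symm).resolve_left (neg_ne_zero.mpr hβ)
      exact pow_eq_zero_iff (n := 2) (by norm_num) |>.mp h8
    rw [hb1, hb2]
    ring
  · apply mul_left_cancel₀ hα
    linear_combination inv3 (disc a b f2 g2 f4 g4 f0 g0 l₂) ^ 2 * k1 - inv3 (disc a b f2 g2 f4 g4 f0 g0 l₁) ^ 2 * k2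

end CX.KSq
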