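import Mathlib
import Pool.Agent.Helper9.NS
import Pool.Agent.Helper40.CX.H15KP.Main
import Pool.Agent.Helper40.CX.H67KQ.ExA1q
import Pool.Agent.Helper40.CX.H67KQ.Qg2
import Pool.Agent.Helper40.CX.BC.KSq2
import Pool.Agent.Helper40.CX.Good2

namespace CX

/-!
# KQ: the surfaces `t z ^ 2 = a t w + f`, `t w ^ 2 = b t z + g`, the theorem
-/

set_option linter.unusedSectionVars false

namespace Pool.Agent.Helper15.KP

open VC VF Function Polynomial Pool.Agent.Helper21.TO Pool.Agent.Helper15.GT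

/-- Step A for families of quartics. -/
theorem stepAq {k : Type} [Field k] [IsAlgClosed k] [Good k] {F : Type} [Field F] [Algebra k F] (D : CQ k F)
    {p : ℕ} (hE : EllVP k (27 * X ^ 2 * QS D.e) (27 * X ^ 3 * QT D.e) p) (M : ℕ) (ξ : Fin M → F) (hξ : ξ ≠ 0)
    (n : ℕ) (hn : p < n) : VoisinOn (proj k (van k ξ)) {b | ∃ a ∈ Odd D.ι, b = a.mapDomain (evP ξ hξ)} n := by
  obtain ⟨Ω, _, _, G, Γ, _, _, _, _, ⟨A⟩⟩ := exists_a1q D
  exact stepA_of A hE M ξ hξ n hn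

/-- The surface `t z ^ 2 = a t w + f`, `t w ^ 2 = b t z + g`. -/
theorem kp_main2 {k : Type} [Field k] [IsAlgClosed k] [Good k] {F : Type} [Field F] [Algebra k F] (s t z w : F)
    (a b f2 g2 f4 g4 : k[X]) (f0 g0 : k)
    (ha : a.natDegree ≤ 1) (hb : b.natDegree ≤ 1) (hf2 : f2.natDegree ≤ 2) (hg2 : g2.natDegree ≤ 2)
    (hf4 : f4.natDegree ≤ 4) (hg4 : g4.natDegree ≤ 4)
    (hst : AlgebraicIndependent k ![s, t])
    (hz : t * z ^ 2 = aeval s a * t * w + (algebraMap k F f0 * t ^ 2 + aeval s f2 * t + aeval s f4))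
    (hw : t * w ^ 2 = aeval s b * t * z + (algebraMap k F g0 * t ^ 2 + aeval s g2 * t + aeval s g4))
    (hgen : IntermediateField.adjoin k {s, t, z, w} = ⊤)
    (hdeg : Module.finrank (IntermediateField.adjoin k {s, t}) F = 4)
    (hm : CX.KSq.HasModuli2 a b f2 g2 f4 g4 f0 g0)
    (hab : (a = 0 → CX.KSq.IndepS f2 f4) ∧ (b = 0 → CX.KSq.IndepS g2 g4)) : VP k F 1 := by
  obtain ⟨N, F6, G, _, _, _, _, _, _, D6, D, A, B, hA, hB, hS, hT, hj⟩ := exists_qg2 s t z w a b f2 g2 f4 g4 f0 g0 ha hb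
    hf2 hg2 hf4 hg4 hst hz hw hgen hdeg hm hab
  have two : (2 : k) ≠ 0 := Good.two
  obtain ⟨B', hB'⟩ : ∃ B' : k[X], B' = C (1 / 2 : k) * B := ⟨_, rfl⟩
  have h2B : B = 2 * B' := by
    rw [hB', ← mul_assoc]
    have : (2 : k[X]) * C (1 / 2 : k) = 1 := by
      have e : (2 : k[X]) = C 2 := by rw [map_ofNat]
      rw [e, ← C_mul, mul_one_div_cancel two, C_1]
    rw [this, one_mul]
  have hB'd : B'.natDegree ≤ 12 := by
    rw [hB']
    exact (natDegree_C_mul_le _ _).trans hB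
  have hj' : ∀ c d : k, C c * A ^ 3 = C d * B' ^ 2 → c = 0 ∧ d = 0 := by
    intro c d h
    obtain ⟨h1, h2⟩ := hj (4 * c) d (by
      rw [h2B, C_mul]
      have e4 : (C 4 : k[X]) = 4 := by rw [map_ofNat]
      rw [e4]
      linear_combination 4 * h)
    refine ⟨?_, h2⟩
    have four : (4 : k) ≠ 0 := by
      have h4 := Good.ne' (K := k) (n := 4) 2 0 rfl
      exact_mod_cast h4
    exact (mul_eq_zero.mp h1).resolve_left four
  have e1 : 27 * X ^ 2 * QS D6.e = 27 * X ^ 4 * A := by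
    rw [hS]; ring
  have e2 : 27 * X ^ 3 * QT D6.e = 54 * X ^ 6 * B' := by
    rw [hT, h2B]; ring
  refine stepB_of D (stepAq D6 ?_) D.rat
  rw [e1, e2]
  exact CX.KPE.ellVP A B' hA hB'd hj'

/-- The same with the data in one structure. -/
theorem kp_data2 {k : Type} [Field k] [IsAlgClosed k] [Good k] {F : Type} [Field F] [Algebra k F]
    {a b f2 g2 f4 g4 : k[X]} {f0 g0 : k} {s t z w : F}
    (h : CX.BC.KData2 a b f2 g2 f4 g4 f0 g0 s t z w) : VP k F 1 :=
  kp_main2 s t z w a b f2 g2 f4 g4 f0 g0 h.ha h.hb h.hf2 h.hg2 h.hf4 h.hg4 h.ind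
    (by linear_combination h.hz) (by linear_combination h.hw) h.gen h.deg h.moduli h.hab

end Pool.Agent.Helper15.KP

end CX
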